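import Pool.Agent.K9h26.GE.Cls

set_option autoImplicit false

/-!
Exponential polynomials of a variable `x = x(t)`, and their quotients.
-/

namespace Pool.Agent.K9h26.GJ

open Pool.Agent.K9h26.GE

/-- on `Ω` the function `f` is `g(x)` with a nonconstant function `g` of the class `QP` -/
def QX (Ω : Set ℂ) (x f : ℂ → ℂ) : Prop :=
  ∃ g : ℂ → ℂ, QP g ∧ (∀ v : ℂ, ∃ s, g s ≠ v) ∧ ∀ t ∈ Ω, f t = g (x t)

/-- on `Ω` the function `f` is a quotient `P(x) / Q(x)` of exponential polynomials of `x` -/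
def EX (Ω : Set ℂ) (x f : ℂ → ℂ) : Prop :=
  ∃ P Q : ℂ → ℂ, XP P ∧ XP Q ∧ (∃ s, Q s ≠ 0) ∧ ∀ t ∈ Ω, Q (x t) ≠ 0 → f t = P (x t) / Q (x t)

/-- the field generated over `F` by the values at `t` of the functions of the family `𝓜` which are
on `Ω` quotients of exponential polynomials of `x` -/
noncomputable def exField (F : Type) [Field F] [Algebra F ℂ] (Ω : Set ℂ) (x : ℂ → ℂ)
    (𝓜 : Set (ℂ → ℂ)) (t : ℂ) : IntermediateField F ℂ :=
  IntermediateField.adjoin F {y | ∃ g ∈ 𝓜, EX Ω x g ∧ y = g t}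

end Pool.Agent.K9h26.GJ
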