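import Pool.Agent.K9h26.GH.Num
import Pool.Agent.K9h26.GJ.Cls

set_option autoImplicit false

/-!
Exponential polynomials of a variable: from functions to numbers.
-/

namespace Pool.Agent.K9h26.GJ

open Complex Filter Topology Set
open scoped Cardinal
open Pool.Agent.K9h76.GM
open Pool.Agent.K9h26.GE (XP QP exists_mul ginv_diff)
open Pool.Agent.K9h26.GH (funcQ ev_near glue)

/-- a nonconstant holomorphic function on a connected open set -/
structure Var (Ω : Set ℂ) (x : ℂ → ℂ) : Prop where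
  op : IsOpen Ω
  pc : IsPreconnected Ω
  df : DifferentiableOn ℂ x Ω
  nc : ∀ v : ℂ, ∃ t ∈ Ω, x t ≠ v

lemma Var.tends {Ω : Set ℂ} {x : ℂ → ℂ} (h : Var Ω x) {p : ℂ} (hp : p ∈ Ω) :
    Tendsto x (𝓝[≠] p) (𝓝[≠] (x p)) := by
  have ha : AnalyticAt ℂ x p := h.df.analyticAt (h.op.mem_nhds hp)
  rw [tendsto_nhdsWithin_iff]
  refine ⟨ha.continuousAt.tendsto.mono_left nhdsWithin_le_nhds, ?_⟩
  rcases ha.eventually_eq_or_eventually_ne (analyticAt_const (v := x p)) with h1 | h1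
  · exfalso
    have h2 := AnalyticOnNhd.eqOn_of_preconnected_of_eventuallyEq (h.df.analyticOnNhd h.op)
      (analyticOnNhd_const (v := x p)) h.pc hp h1
    obtain ⟨t, ht, hne⟩ := h.nc (x p)
    exact hne (h2 ht)
  · exact h1

/-- an entire function vanishes if it vanishes at the values of `x` -/
lemma Var.entire {Ω : Set ℂ} {x : ℂ → ℂ} (h : Var Ω x) {T : ℂ → ℂ} (hT : Differentiable ℂ T)
    {p : ℂ} (hp : p ∈ Ω) (h0 : ∀ᶠ t in 𝓝[≠] p, T (x t) = 0) : ∀ y, T y = 0 := by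
  by_contra hcon
  push Not at hcon
  have h1 := (h.tends hp).eventually (ev_near hT hcon (x p))
  obtain ⟨t, h2, h3⟩ := (h0.and h1).exists
  exact h3 h2

lemma EX.const {Ω : Set ℂ} {x : ℂ → ℂ} (c : ℂ) : EX Ω x (fun _ => c) :=
  ⟨fun _ => c, fun _ => 1, XP.const c, XP.const 1, ⟨0, one_ne_zero⟩, fun t _ _ => by rw [div_one]⟩

lemma EX.add {Ω : Set ℂ} {x f g : ℂ → ℂ} (hf : EX Ω x f) (hg : EX Ω x g) :
    EX Ω x (fun t => f t + g t) := by
  obtain ⟨P, Q, hP, hQ, hQ0, h⟩ := hf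
  obtain ⟨P', Q', hP', hQ', hQ0', h'⟩ := hg
  refine ⟨fun t => P t * Q' t + P' t * Q t, fun t => Q t * Q' t, (hP.mul hQ').add (hP'.mul hQ),
    hQ.mul hQ', exists_mul hQ.diff hQ'.diff hQ0 hQ0', fun t ht0 ht => ?_⟩
  have h1 : Q (x t) ≠ 0 := left_ne_zero_of_mul ht
  have h2 : Q' (x t) ≠ 0 := right_ne_zero_of_mul ht
  show f t + g t = (P (x t) * Q' (x t) + P' (x t) * Q (x t)) / (Q (x t) * Q' (x t))
  rw [h t ht0 h1, h' t ht0 h2]
  field_simp

lemma EX.mul {Ω : Set ℂ} {x f g : ℂ → ℂ} (hf : EX Ω x f) (hg : EX Ω x g) :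
    EX Ω x (fun t => f t * g t) := by
  obtain ⟨P, Q, hP, hQ, hQ0, h⟩ := hf
  obtain ⟨P', Q', hP', hQ', hQ0', h'⟩ := hg
  refine ⟨fun t => P t * P' t, fun t => Q t * Q' t, hP.mul hP',
    hQ.mul hQ', exists_mul hQ.diff hQ'.diff hQ0 hQ0', fun t ht0 ht => ?_⟩
  have h1 : Q (x t) ≠ 0 := left_ne_zero_of_mul ht
  have h2 : Q' (x t) ≠ 0 := right_ne_zero_of_mul ht
  show f t * g t = P (x t) * P' (x t) / (Q (x t) * Q' (x t))
  rw [h t ht0 h1, h' t ht0 h2]
  field_simp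

lemma QX.ex {Ω : Set ℂ} {x f : ℂ → ℂ} (hf : QX Ω x f) : EX Ω x f := by
  obtain ⟨g, hg, -, h⟩ := hf
  obtain ⟨P, Q, hP, hQ, hQ0, h'⟩ := hg.eq
  exact ⟨P, Q, hP, hQ, hQ0, fun t ht0 ht => by rw [h t ht0, h' _ ht]⟩

/-- the functional theorem with quotients as coefficients -/
theorem funcX {Ω : Set ℂ} {x : ℂ → ℂ} (hx : Var Ω x) {ι : Type} [Fintype ι] (f : ι → ℂ → ℂ)
    (hf : ∀ i, QX Ω x (f i))
    (hH : ∀ i j, i ≠ j → ∀ p q : ℚ, ¬ ∀ t ∈ Ω, f i t = p * f j t + q)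
    (N : Finset (ι → ℕ)) (c : (ι → ℕ) → ℂ → ℂ) (hc : ∀ k ∈ N, EX Ω x (c k))
    (hrel : Van Ω (fun t => ∑ k ∈ N, c k t * ∏ i, (Gamma (f i t))⁻¹ ^ k i)) :
    ∀ k ∈ N, Van Ω (c k) := by
  classical
  choose g hg hgn hfg using hf
  choose! P Q hP hQ hQ0 heq using hc
  set R : (ι → ℕ) → ℂ → ℂ := fun k t => P k t * ∏ l ∈ N.erase k, Q l t with hR
  have hprod : ∀ S : Finset (ι → ℕ), S ⊆ N → XP (fun t => ∏ l ∈ S, Q l t) := by
    intro S
    induction S using Finset.induction_on with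
    | empty => intro _; simpa using XP.const 1
    | insert a S ha ih =>
      intro hS
      have h1 := (hQ a (hS (Finset.mem_insert_self a S))).mul
        (ih fun b hb => hS (Finset.mem_insert_of_mem hb))
      have h2 : (fun t => Q a t * ∏ l ∈ S, Q l t) = fun t => ∏ l ∈ insert a S, Q l t := by
        funext t
        rw [Finset.prod_insert ha]
      rwa [h2] at h1
  have hRx : ∀ k ∈ N, XP (R k) := fun k hk => (hP k hk).mul (hprod _ (Finset.erase_subset _ _))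
  have hnear : ∀ p ∈ Ω, ∀ᶠ t in 𝓝[≠] p, t ∈ Ω ∧ ∀ l ∈ N, Q l (x t) ≠ 0 := by
    intro p hp
    refine (eventually_nhdsWithin_of_eventually_nhds (hx.op.mem_nhds hp)).and ?_
    rw [Filter.eventually_all_finset]
    intro l hl
    exact (hx.tends hp).eventually (ev_near (hQ l hl).diff (hQ0 l hl) (x p))
  obtain ⟨p₀, hp₀, -⟩ := hx.nc 0
  have hT : ∀ y, ∑ k ∈ N, R k y * ∏ i, (Gamma (g i y))⁻¹ ^ k i = 0 := by
    refine hx.entire (T := fun y => ∑ k ∈ N, R k y * ∏ i, (Gamma (g i y))⁻¹ ^ k i) ?_ hp₀ ?_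
    · apply Differentiable.fun_sum
      intro k hk
      apply (hRx k hk).diff.mul
      apply Differentiable.fun_finsetProd
      intro i _
      exact (ginv_diff (hg i).1).pow _
    · filter_upwards [hnear p₀ hp₀, hrel p₀ hp₀] with t h1 h2
      have h3 : ∑ k ∈ N, R k (x t) * ∏ i, (Gamma (g i (x t)))⁻¹ ^ k i =
          (∏ l ∈ N, Q l (x t)) * ∑ k ∈ N, c k t * ∏ i, (Gamma (f i t))⁻¹ ^ k i := by
        rw [Finset.mul_sum]
        refine Finset.sum_congr rfl fun k hk => ?_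
        rw [heq k hk t h1.1 (h1.2 k hk), ← Finset.mul_prod_erase _ _ hk]
        simp only [hR, hfg _ t h1.1]
        have := h1.2 k hk
        field_simp
      rw [h3, h2, mul_zero]
  have key := funcQ g hg (fun i v hcon => by
      obtain ⟨s, hs⟩ := hgn i v
      exact hs (hcon s))
    (fun i j hij p q hcon => hH i j hij p q fun t ht => by rw [hfg i t ht, hfg j t ht, hcon])
    N R (fun k hk => Pool.Agent.K9h26.GE.QP.of_xp (hRx k hk)) hT
  intro k hk p hp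
  filter_upwards [hnear p hp] with t h1
  have h2 := key k hk (x t)
  simp only [hR] at h2
  have h3 : ∏ l ∈ N.erase k, Q l (x t) ≠ 0 :=
    Finset.prod_ne_zero_iff.2 fun l hl => h1.2 l (Finset.mem_of_mem_erase hl)
  rw [heq k hk t h1.1 (h1.2 k hk), (mul_eq_zero.1 h2).resolve_right h3, zero_div]

variable {F : Type} [Field F] [Algebra F ℂ]

lemma ev_ex {Ω : Set ℂ} {x : ℂ → ℂ} {𝓔 : Set (ℂ → ℂ)} (h𝓔 : ∀ g ∈ 𝓔, EX Ω x g)
    (q : MvPolynomial 𝓔 F) : EX Ω x (fun t => ev F 𝓔 t q) := by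
  induction q using MvPolynomial.induction_on with
  | C a =>
    have : (fun t => ev F 𝓔 t (MvPolynomial.C a)) = fun _ => (algebraMap F ℂ a) := by
      funext t
      simp [ev]
    rw [this]
    exact EX.const _
  | add p q hp hq =>
    have : (fun t => ev F 𝓔 t (p + q)) = fun t => ev F 𝓔 t p + ev F 𝓔 t q := by
      funext t
      rw [map_add]
    rw [this]
    exact hp.add hq
  | mul_X p g hp =>
    have : (fun t => ev F 𝓔 t (p * MvPolynomial.X g)) = fun t => ev F 𝓔 t p * g.1 t := by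
      funext t
      rw [map_mul]
      simp [ev]
    rw [this]
    exact hp.mul (h𝓔 g.1 g.2)

lemma Phi_vanX {Ω : Set ℂ} {x : ℂ → ℂ} (hx : Var Ω x) {𝓔 : Set (ℂ → ℂ)}
    (h𝓔 : ∀ g ∈ 𝓔, EX Ω x g) {n : ℕ} (f : Fin n → 𝓔) (hG : ∀ i, QX Ω x (f i).1)
    (hH : ∀ i j, i ≠ j → ∀ a b : ℚ, ¬ ∀ t ∈ Ω, (f i).1 t = a * (f j).1 t + b)
    (P : MvPolynomial (Fin n) (MvPolynomial 𝓔 F)) (hP : Van Ω (Phi f P)) (k : Fin n →₀ ℕ) :
    Van Ω (fun t => ev F 𝓔 t (P.coeff k)) := by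
  classical
  by_cases hk : k ∈ P.support
  · let cf : (Fin n →₀ ℕ) → (Fin n → ℕ) := fun k i => k i
    have hcf : ∀ k, Finsupp.equivFunOnFinite.symm (cf k) = k := fun k => by ext; simp [cf]
    have hinj : Function.Injective cf := fun a b h => by
      rw [← hcf a, ← hcf b, h]
    have h1 := funcX hx (fun i => (f i).1) hG hH (P.support.image cf)
      (fun l t => ev F 𝓔 t (P.coeff (Finsupp.equivFunOnFinite.symm l)))
      (fun l _ => ev_ex h𝓔 _) ?_ (cf k) (Finset.mem_image_of_mem _ hk)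
    · simp only [hcf] at h1
      exact h1
    · intro p hp
      filter_upwards [hP p hp] with t ht
      rw [Phi_eq] at ht
      rw [Finset.sum_image (fun k₁ _ k₂ _ h => hinj h), ← ht]
      refine Finset.sum_congr rfl fun l _ => ?_
      rw [hcf]
  · intro p _
    refine Eventually.of_forall fun t => ?_
    change ev F 𝓔 t (P.coeff k) = 0
    rw [MvPolynomial.notMem_support_iff.1 hk, map_zero]

open scoped IntermediateField.algebraAdjoinAdjoin in
/-- off the exceptional set the values of `Γ` are algebraically independent over the field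
generated by the values of the family -/
theorem algIndX {Ω : Set ℂ} {x : ℂ → ℂ} (hx : Var Ω x) {𝓔 : Set (ℂ → ℂ)}
    (h𝓔 : ∀ g ∈ 𝓔, EX Ω x g) {t : ℂ} (ht : t ∈ Ω) (hE : t ∉ Exc F 𝓔 Ω) {n : ℕ}
    (f : Fin n → 𝓔) (hG : ∀ i, QX Ω x (f i).1)
    (hH : ∀ i j, i ≠ j → ∀ a b : ℚ, (f i).1 t ≠ a * (f j).1 t + b) :
    AlgebraicIndependent (vals F 𝓔 t) (fun i => Gamma ((f i).1 t)) := by
  have hH' : ∀ i j, i ≠ j → ∀ a b : ℚ, ¬ ∀ t ∈ Ω, (f i).1 t = a * (f j).1 t + b :=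
    fun i j hij a b hv => hH i j hij a b (hv t ht)
  set S : Set ℂ := Set.range fun g : 𝓔 => g.1 t with hS
  have key : AlgebraicIndependent (Algebra.adjoin F S)
      (fun i => (Gamma ((f i).1 t))⁻¹) := by
    have hmem : ∀ q, ev F 𝓔 t q ∈ Algebra.adjoin F S := by
      intro q
      rw [hS, Algebra.adjoin_range_eq_range_aeval]
      exact ⟨q, rfl⟩
    let φ : MvPolynomial 𝓔 F →ₐ[F] Algebra.adjoin F S := (ev F 𝓔 t).codRestrict _ hmem
    have hφ : Function.Surjective φ := by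
      rintro ⟨x, hx⟩
      have hx' := hx
      rw [hS, Algebra.adjoin_range_eq_range_aeval] at hx'
      obtain ⟨q, hq⟩ := hx'
      exact ⟨q, Subtype.ext hq⟩
    rw [algebraicIndependent_iff]
    intro p hp
    obtain ⟨P, rfl⟩ := MvPolynomial.map_surjective φ.toRingHom hφ p
    have h1 : Phi f P t = 0 := by
      rw [Phi, ← hp, MvPolynomial.aeval_def, MvPolynomial.eval₂_map]
      rfl
    have h2 := Phi_vanX hx h𝓔 f hG hH' P ((Phi_iff ht hE f P).1 h1)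
    ext k
    have h3 := (ev_iff ht hE _).2 (h2 k)
    rw [MvPolynomial.coeff_map, MvPolynomial.coeff_zero]
    exact h3
  have key2 : AlgebraicIndependent (vals F 𝓔 t) (fun i => (Gamma ((f i).1 t))⁻¹) :=
    key.extendScalars (IntermediateField.adjoin F S)
  have := algInd_inv key2
  simpa only [inv_inv] using this

lemma qx_nonconst {Ω : Set ℂ} {x : ℂ → ℂ} (hx : Var Ω x) {f : ℂ → ℂ} (hf : QX Ω x f) :
    NonConst Ω f := by
  obtain ⟨g, hg, hgn, h⟩ := hf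
  intro v
  by_contra hcon
  push Not at hcon
  obtain ⟨p₀, hp₀, -⟩ := hx.nc 0
  have hfa : ∀ p ∈ Ω, AnalyticAt ℂ f p := by
    intro p hp
    have h1 : AnalyticAt ℂ (fun t => g (x t)) p :=
      (hg.1.analyticAt (x p)).fun_comp (hx.df.analyticAt (hx.op.mem_nhds hp))
    refine h1.congr ?_
    filter_upwards [hx.op.mem_nhds hp] with t ht using (h t ht).symm
  have h2 := hx.entire (T := fun y => g y - v) (hg.1.sub_const v) hp₀ (by
    filter_upwards [eventually_nhdsWithin_of_eventually_nhds (hx.op.mem_nhds hp₀)] with t ht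
    have h3 : t ∈ Ω := ht
    rw [← h t h3, hcon t h3 (hfa t h3), sub_self])
  obtain ⟨s, hs⟩ := hgn v
  exact hs (sub_eq_zero.1 (h2 s))

lemma pole_nonconst' {Ω : Set ℂ} (hΩ : IsOpen Ω) {f : ℂ → ℂ} (hf : MeromorphicOn f Ω)
    (hp : HasPole Ω f) : NonConst Ω f := by
  obtain ⟨p, hp, ho⟩ := hp
  intro v
  have h1 := tendsto_cobounded_of_meromorphicOrderAt_neg ho
  have h2 : ∀ᶠ t in 𝓝[≠] p, f t ≠ v :=
    h1.eventually (Bornology.eventually_ne_cobounded v)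
  have h3 : ∀ᶠ t in 𝓝[≠] p, t ∈ Ω :=
    eventually_nhdsWithin_of_eventually_nhds (hΩ.mem_nhds hp)
  obtain ⟨t, ⟨h3, h4⟩, h5⟩ := ((h2.and (hf p hp).eventually_analyticAt).and h3).exists
  exact ⟨t, h5, h4, h3⟩

lemma vals_ex {Ω : Set ℂ} {x : ℂ → ℂ} {𝓜 : Set (ℂ → ℂ)} {t : ℂ} :
    vals F {g | g ∈ 𝓜 ∧ EX Ω x g} t = exField F Ω x 𝓜 t := by
  unfold vals exField
  congr 1
  ext x
  constructor
  · rintro ⟨⟨g, hg, hx⟩, rfl⟩
    exact ⟨g, hg, hx, rfl⟩
  · rintro ⟨g, hg, hx, rfl⟩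
    exact ⟨⟨g, hg, hx⟩, rfl⟩

theorem numX [Countable F] {Ω : Set ℂ} {x : ℂ → ℂ} (hx : Var Ω x) {𝓜 : Set (ℂ → ℂ)}
    (hcount : 𝓜.Countable) (h𝓜 : ∀ g ∈ 𝓜, MeromorphicOn g Ω) :
    ∃ S : Set ℂ, S.Countable ∧ ∀ t ∈ Ω, t ∉ S → ∀ (n : ℕ) (f : Fin n → ℂ → ℂ), (∀ i, f i ∈ 𝓜) →
      (∀ i, HasPole Ω (f i) ∨ QX Ω x (f i)) →
      (∀ i j, i ≠ j → ∀ a b : ℚ, f i t ≠ a * f j t + b) →
      AlgebraicIndependent (exField F Ω x 𝓜 t) (fun i => Gamma (f i t)) ∧
      (n : Cardinal) + Algebra.trdeg F (IntermediateField.adjoin F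
          (range fun i : {i // EX Ω x (f i)} => f i t)) ≤
        Algebra.trdeg F (IntermediateField.adjoin F
          (range (fun i => f i t) ∪ range fun i => Gamma (f i t))) ∧
      (1 ≤ n → ((n + 1 : ℕ) : Cardinal) ≤ Algebra.trdeg F (IntermediateField.adjoin F
          (range (fun i => f i t) ∪ range fun i => Gamma (f i t)))) := by
  classical
  have hΩ := hx.op
  have hpc := hx.pc
  set 𝓔 : Set (ℂ → ℂ) := {g | g ∈ 𝓜 ∧ EX Ω x g} with h𝓔d
  have h𝓔 : ∀ g ∈ 𝓔, EX Ω x g := fun g hg => hg.2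
  have h𝓔m : ∀ g ∈ 𝓔, MeromorphicOn g Ω := fun g hg => h𝓜 g hg.1
  have h𝓔c : 𝓔.Countable := hcount.mono fun g hg => hg.1
  obtain ⟨S₁, hS₁, hmain⟩ := main (F := F) hΩ hpc hcount h𝓜
  refine ⟨S₁ ∪ Exc F 𝓔 Ω ∪ ⋃ g : 𝓔, {t | t ∈ Ω ∧ NonConst Ω g.1 ∧ IsAlgebraic F (g.1 t)},
    ?_, ?_⟩
  · refine (hS₁.union (Exc_countable h𝓔c hΩ hpc h𝓔m)).union ?_
    have : Countable 𝓔 := h𝓔c.to_subtype
    refine countable_iUnion fun g => ?_
    by_cases hg : NonConst Ω g.1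
    · refine Countable.mono ?_ (preim_countable hΩ hpc (h𝓔m _ g.2) hg
        (Algebraic.countable F ℂ))
      rintro t ⟨h1, -, h2⟩
      exact ⟨h1, h2⟩
    · convert countable_empty (α := ℂ)
      ext t
      simp only [mem_ofPred_eq, mem_empty_iff_false, iff_false]
      exact fun h => hg h.2.1
  intro t htΩ htS n f hf hGP hH
  have ht1 : t ∉ S₁ := fun h => htS (Or.inl (Or.inl h))
  have hE : t ∉ Exc F 𝓔 Ω := fun h => htS (Or.inl (Or.inr h))
  have hB : ∀ g ∈ 𝓔, NonConst Ω g → ¬ IsAlgebraic F (g t) := fun g hg hn h =>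
    htS (Or.inr (mem_iUnion_of_mem (⟨g, hg⟩ : 𝓔) ⟨htΩ, hn, h⟩))
  obtain ⟨hpole, -, hmain3⟩ := hmain t htΩ ht1 n f hf hH
  have hG : ∀ i, ¬ HasPole Ω (f i) → QX Ω x (f i) := fun i hi => (hGP i).resolve_left hi
  have hGE : ∀ i, ¬ HasPole Ω (f i) → f i ∈ 𝓔 := fun i h => ⟨hf i, (hG i h).ex⟩
  have h1 : AlgebraicIndependent (exField F Ω x 𝓜 t)
      (fun i : {i // ¬ HasPole Ω (f i)} => Gamma (f i t)) := by
    let e := Fintype.equivFin {i // ¬ HasPole Ω (f i)}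
    have h := algIndX (F := F) hx h𝓔 htΩ hE
      (fun k => (⟨f (e.symm k).1, hGE _ (e.symm k).2⟩ : 𝓔)) (fun k => hG _ (e.symm k).2)
      (fun i j hij => hH _ _ fun h => hij (e.symm.injective (Subtype.ext h)))
    have hv : vals F 𝓔 t = exField F Ω x 𝓜 t := vals_ex
    rw [hv] at h
    have h' := h.comp e e.injective
    simpa [Function.comp_def] using h'
  have hKV : exField F Ω x 𝓜 t ≤ valueField F Ω 𝓜 t := by
    unfold exField valueField
    apply IntermediateField.adjoin.mono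
    rintro y ⟨g, hg, -, rfl⟩
    exact Or.inl ⟨g, hg, rfl⟩
  have hall : AlgebraicIndependent (exField F Ω x 𝓜 t) (fun i => Gamma (f i t)) := by
    refine glue hKV (fun i => HasPole Ω (f i)) _ h1 (fun i hi => ?_) hpole
    exact IntermediateField.subset_adjoin _ _ (Or.inr ⟨f i, hf i, hi, rfl⟩)
  set z : Fin n → ℂ := fun i => f i t with hz
  set M := IntermediateField.adjoin F (range z ∪ range fun i => Gamma (z i)) with hM
  have hzM : ∀ i, z i ∈ M := fun i => IntermediateField.subset_adjoin _ _ (Or.inl ⟨i, rfl⟩)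
  have hGM : ∀ i, Gamma (z i) ∈ M := fun i =>
    IntermediateField.subset_adjoin _ _ (Or.inr ⟨i, rfl⟩)
  have hzX : ∀ i, EX Ω x (f i) → z i ∈ exField F Ω x 𝓜 t := fun i hi =>
    IntermediateField.subset_adjoin _ _ ⟨f i, hf i, hi, rfl⟩
  have hadd : (n : Cardinal) + Algebra.trdeg F (IntermediateField.adjoin F
      (range fun i : {i // EX Ω x (f i)} => f i t)) ≤ Algebra.trdeg F M := by
    have h2 := add_le_trdeg (L := IntermediateField.adjoin F
      (range fun i : {i // EX Ω x (f i)} => f i t)) (L' := exField F Ω x 𝓜 t)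
      (M := M) (IntermediateField.adjoin_le_iff.2 ?_) (IntermediateField.adjoin_le_iff.2 ?_) hall
      hGM
    · rwa [Cardinal.mk_fin] at h2
    · rintro y ⟨i, rfl⟩
      exact hzX i i.2
    · rintro y ⟨i, rfl⟩
      exact hzM i
  refine ⟨hall, hadd, fun hn => ?_⟩
  by_cases hQ : ∃ i, ¬ HasPole Ω (f i)
  · obtain ⟨i₀, hi₀⟩ := hQ
    have hnc : NonConst Ω (f i₀) := qx_nonconst hx (hG i₀ hi₀)
    have h5 : AlgebraicIndependent F (fun _ : Unit => z i₀) :=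
      algebraicIndependent_unique_type_iff.2 (hB _ (hGE _ hi₀) hnc)
    have h6 := card_le_trdeg h5 (M := IntermediateField.adjoin F
      (range fun i : {i // EX Ω x (f i)} => f i t))
      (fun _ => IntermediateField.subset_adjoin _ _ ⟨⟨i₀, (hG i₀ hi₀).ex⟩, rfl⟩)
    have h7 : (1 : Cardinal) ≤ Algebra.trdeg F (IntermediateField.adjoin F
      (range fun i : {i // EX Ω x (f i)} => f i t)) := by simpa using h6
    have h8 : ((n + 1 : ℕ) : Cardinal) = (n : Cardinal) + 1 := by push_cast; rfl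
    rw [h8]
    exact (add_le_add_right h7 _).trans hadd
  · push Not at hQ
    have hnc : ∀ i, NonConst Ω (f i) := fun i => pole_nonconst' hΩ (h𝓜 _ (hf i)) (hQ i)
    obtain ⟨h5, -⟩ := hmain3 hn hnc
    have h6 : Nat.card {i // ¬ HasPole Ω (f i)} = 0 := by
      have : IsEmpty {i // ¬ HasPole Ω (f i)} := ⟨fun i => i.2 (hQ i.1)⟩
      exact Nat.card_of_isEmpty
    rw [h6] at h5
    have h7 : n - 0 + min (0 + 1) 3 = n + 1 := by omega
    rwa [h7] at h5

end Pool.Agent.K9h26.GJ
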